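import Pool.Agent.Helper77.AE.Loc
import Pool.Agent.Helper69.SLN.Root

/-!
# Project MP_0f6f3f_an, layer AE (algebraic end): isomorphisms from the simple root spaces

`Smp A al`: the `al i` are restricted roots, the differences `al i - al j`, `i ≠ j`, are nonzero and not roots, some `H` has `al i H = 1` for all `i`, and the root spaces of `±al i` generate `L`.
`ten_iso`: linear bijections `F i : g_(al i) → g'_(al' i)` which preserve the tensors `[[x, θ y], v]`, `x, y ∈ g_(al i)`, `v ∈ g_(al j)`, extend to an isomorphism of Lie algebras which commutes with the Cartan involutions.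
-/

set_option autoImplicit false

namespace Pool.Agent.Helper77.AE

open Pool.Agent.Helper96.SA Pool.Agent.Helper96.TO Pool.Agent.Helper69.SLN

variable {L L' : Type} [LieRing L] [LieAlgebra ℝ L] [LieRing L'] [LieAlgebra ℝ L'] {N N' : ℕ} {θ : L ≃ₗ⁅ℝ⁆ L} {θ' : L' ≃ₗ⁅ℝ⁆ L'}
  {b : Module.Basis (Fin N) ℝ L} {b' : Module.Basis (Fin N') ℝ L'} {A : Submodule ℝ L} {A' : Submodule ℝ L'} {ι : Type}
  {al : ι → Module.Dual ℝ A} {al' : ι → Module.Dual ℝ A'}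

/-- A generating simple system of restricted roots. -/
structure Smp (A : Submodule ℝ L) (al : ι → Module.Dual ℝ A) : Prop where
  root : ∀ i, al i ∈ rootsL A
  dif : ∀ i j, i ≠ j → al i - al j ≠ 0 ∧ al i - al j ∉ rootsL A
  ht : ∃ H : A, ∀ i, al i H = 1
  gen : LieSubalgebra.lieSpan ℝ L {x : L | ∃ i, Wv A (al i) x ∨ Wv A (-al i) x} = ⊤

theorem lieSpan_comm {S : Set L} (hS : LieSubalgebra.lieSpan ℝ L S = ⊤) {c : L} (hc : ∀ x ∈ S, ⁅c, x⁆ = 0) (z : L) : ⁅c, z⁆ = 0 := by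
  have hz : z ∈ LieSubalgebra.lieSpan ℝ L S := by
    rw [hS]
    trivial
  refine LieSubalgebra.lieSpan_induction (R := ℝ) (L := L) (s := S) (p := fun z _ => ⁅c, z⁆ = 0) ?_ ?_ ?_ ?_ ?_ hz
  · exact hc
  · exact lie_zero _
  · intro x y _ _ h1 h2
    rw [lie_add, h1, h2, add_zero]
  · intro r x _ h1
    rw [lie_smul, h1, smul_zero]
  · intro x y _ _ h1 h2
    rw [leibniz_lie, h1, h2, zero_lie, lie_zero, add_zero]

/-- Two homomorphisms which agree on generators are equal. -/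
theorem lieSpan_ext {S : Set L} (hS : LieSubalgebra.lieSpan ℝ L S = ⊤) {f g : L →ₗ⁅ℝ⁆ L'} (hc : ∀ x ∈ S, f x = g x) (z : L) : f z = g z := by
  have hz : z ∈ LieSubalgebra.lieSpan ℝ L S := by
    rw [hS]
    trivial
  refine LieSubalgebra.lieSpan_induction (R := ℝ) (L := L) (s := S) (p := fun z _ => f z = g z) ?_ ?_ ?_ ?_ ?_ hz
  · exact hc
  · rw [map_zero, map_zero]
  · intro x y _ _ h1 h2
    rw [map_add, map_add, h1, h2]
  · intro r x _ h1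
    rw [map_smul, map_smul, h1]
  · intro x y _ _ h1 h2
    rw [LieHom.map_lie, LieHom.map_lie, h1, h2]

theorem Smp.comm_zero (h : CartanBasis θ b) (hA : MaxFlat θ A) (hS : Smp A al) {c : L} (h1 : ∀ i x, Wv A (al i) x → ⁅c, x⁆ = 0)
    (h2 : ∀ i x, Wv A (al i) x → ⁅c, θ x⁆ = 0) : c = 0 := by
  refine center_zero h (lieSpan_comm hS.gen ?_)
  rintro x ⟨i, hx | hx⟩
  · exact h1 i x hx
  · have h3 := hx.theta hA
    rw [neg_neg] at h3
    have h4 := h2 i _ h3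
    rwa [h.invol] at h4

/-- **Isomorphisms from the simple root spaces.** -/
theorem ten_iso [Nonempty ι] [LieAlgebra.IsSimple ℝ L] [LieAlgebra.IsSimple ℝ L'] (h : CartanBasis θ b) (h' : CartanBasis θ' b')
    (hA : MaxFlat θ A) (hA' : MaxFlat θ' A') (hS : Smp A al) (hS' : Smp A' al') (F : ι → L →ₗ[ℝ] L')
    (hF : ∀ i x, Wv A (al i) x → Wv A' (al' i) (F i x)) (hFs : ∀ i y, Wv A' (al' i) y → ∃ x, Wv A (al i) x ∧ F i x = y)
    (hFi : ∀ i x, Wv A (al i) x → F i x = 0 → x = 0)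
    (hT : ∀ i j x y v, Wv A (al i) x → Wv A (al i) y → Wv A (al j) v → F j ⁅⁅x, θ y⁆, v⁆ = ⁅⁅F i x, θ' (F i y)⁆, F j v⁆) :
    ∃ e : L ≃ₗ⁅ℝ⁆ L', (∀ i x, Wv A (al i) x → e x = F i x) ∧ ∀ x, e (θ x) = θ' (e x) := by
  obtain ⟨H, hH⟩ := hS.ht
  obtain ⟨H', hH'⟩ := hS'.ht
  obtain ⟨Sp, hSp⟩ : ∃ Sp : Submodule ℝ (L × L'), Sp = Submodule.span ℝ {z | ∃ i x, Wv A (al i) x ∧ z = (x, F i x)} := ⟨_, rfl⟩
  obtain ⟨Sm, hSm⟩ : ∃ Sm : Submodule ℝ (L × L'), Sm = Submodule.span ℝ {z | ∃ i x, Wv A (al i) x ∧ z = (θ x, θ' (F i x))} := ⟨_, rfl⟩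
  obtain ⟨S0, hS0⟩ : ∃ S0 : Submodule ℝ (L × L'), S0 = Submodule.span ℝ {z | ∃ i x y, Wv A (al i) x ∧ Wv A (al i) y ∧
    z = (⁅x, θ y⁆, ⁅F i x, θ' (F i y)⁆)} := ⟨_, rfl⟩
  have mp : ∀ i x, Wv A (al i) x → ((x, F i x) : L × L') ∈ Sp := fun i x hx => by
    rw [hSp]
    exact Submodule.subset_span ⟨i, x, hx, rfl⟩
  have mm : ∀ i x, Wv A (al i) x → ((θ x, θ' (F i x)) : L × L') ∈ Sm := fun i x hx => by
    rw [hSm]
    exact Submodule.subset_span ⟨i, x, hx, rfl⟩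
  have m0 : ∀ i x y, Wv A (al i) x → Wv A (al i) y → ((⁅x, θ y⁆, ⁅F i x, θ' (F i y)⁆) : L × L') ∈ S0 := fun i x y hx hy => by
    rw [hS0]
    exact Submodule.subset_span ⟨i, x, y, hx, hy, rfl⟩
  -- induction principles
  have ip : ∀ (P : Submodule ℝ (L × L')), (∀ i x, Wv A (al i) x → ((x, F i x) : L × L') ∈ P) → ∀ z ∈ Sp, z ∈ P := by
    intro P hP z hz
    rw [hSp] at hz
    refine (Submodule.span_le.2 ?_ : _ ≤ P) hz
    rintro _ ⟨i, x, hx, rfl⟩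
    exact hP i x hx
  have im : ∀ (P : Submodule ℝ (L × L')), (∀ i x, Wv A (al i) x → ((θ x, θ' (F i x)) : L × L') ∈ P) → ∀ z ∈ Sm, z ∈ P := by
    intro P hP z hz
    rw [hSm] at hz
    refine (Submodule.span_le.2 ?_ : _ ≤ P) hz
    rintro _ ⟨i, x, hx, rfl⟩
    exact hP i x hx
  have i0 : ∀ (P : Submodule ℝ (L × L')), (∀ i x y, Wv A (al i) x → Wv A (al i) y → ((⁅x, θ y⁆, ⁅F i x, θ' (F i y)⁆) : L × L') ∈ P) →
      ∀ z ∈ S0, z ∈ P := by
    intro P hP z hz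
    rw [hS0] at hz
    refine (Submodule.span_le.2 ?_ : _ ≤ P) hz
    rintro _ ⟨i, x, y, hx, hy, rfl⟩
    exact hP i x y hx hy
  -- weights
  have w0 : ∀ {i x y}, Wv A (al i) x → Wv A (al i) y → Wv A 0 ⁅x, θ y⁆ := by
    intro i x y hx hy
    have h1 := hx.lie (hy.theta hA)
    rwa [add_neg_cancel] at h1
  have wj : ∀ {i j x y v}, Wv A (al i) x → Wv A (al i) y → Wv A (al j) v → Wv A (al j) ⁅⁅x, θ y⁆, v⁆ := by
    intro i j x y v hx hy hv
    have h1 := (w0 hx hy).lie hv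
    rwa [zero_add] at h1
  -- θ of the tensors
  have t1 : ∀ x y v : L, ⁅⁅x, θ y⁆, θ v⁆ = -θ ⁅⁅y, θ x⁆, v⁆ := by
    intro x y v
    rw [LieEquiv.map_lie, LieEquiv.map_lie, h.invol, ← lie_skew x (θ y), neg_lie]
  have t2 : ∀ x y v : L', ⁅⁅x, θ' y⁆, θ' v⁆ = -θ' ⁅⁅y, θ' x⁆, v⁆ := by
    intro x y v
    rw [LieEquiv.map_lie, LieEquiv.map_lie, h'.invol, ← lie_skew x (θ' y), neg_lie]
  -- the brackets of generators
  have b0p : ∀ i j x y v, Wv A (al i) x → Wv A (al i) y → Wv A (al j) v →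
      ⁅((⁅x, θ y⁆, ⁅F i x, θ' (F i y)⁆) : L × L'), ((v, F j v) : L × L')⁆ = (⁅⁅x, θ y⁆, v⁆, F j ⁅⁅x, θ y⁆, v⁆) := by
    intro i j x y v hx hy hv
    rw [LieAlgebra.Prod.bracket_apply, hT i j x y v hx hy hv]
  have b0m : ∀ i j x y v, Wv A (al i) x → Wv A (al i) y → Wv A (al j) v →
      ⁅((⁅x, θ y⁆, ⁅F i x, θ' (F i y)⁆) : L × L'), ((θ v, θ' (F j v)) : L × L')⁆ = -((θ ⁅⁅y, θ x⁆, v⁆, θ' (F j ⁅⁅y, θ x⁆, v⁆)) : L × L') := by
    intro i j x y v hx hy hv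
    rw [LieAlgebra.Prod.bracket_apply, hT i j y x v hy hx hv, Prod.neg_mk]
    exact Prod.ext (t1 x y v) (t2 (F i x) (F i y) (F j v))
  -- submodules of the elements with a bracket in a given submodule
  let Br : (L × L') → Submodule ℝ (L × L') → Submodule ℝ (L × L') := fun z P =>
    P.comap (LieAlgebra.ad ℝ (L × L') z : (L × L') →ₗ[ℝ] (L × L'))
  let Bl : (L × L') → Submodule ℝ (L × L') → Submodule ℝ (L × L') := fun z P =>
    P.comap (-(LieAlgebra.ad ℝ (L × L') z : (L × L') →ₗ[ℝ] (L × L')))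
  have mBr : ∀ z P w, w ∈ Br z P ↔ ⁅z, w⁆ ∈ P := fun z P w => Iff.rfl
  have mBl : ∀ z P w, w ∈ Bl z P ↔ ⁅w, z⁆ ∈ P := fun z P w => by
    change -⁅z, w⁆ ∈ P ↔ _
    rw [lie_skew]
  have h0p : ∀ x ∈ S0, ∀ y ∈ Sp, ⁅x, y⁆ ∈ Sp := by
    intro x hx y hy
    refine (mBr x Sp y).1 (ip _ (fun j v hv => (mBr _ _ _).2 ?_) y hy)
    refine (mBl _ Sp x).1 (i0 _ (fun i u w hu hw => (mBl _ _ _).2 ?_) x hx)
    rw [b0p i j u w v hu hw hv]
    exact mp j _ (wj hu hw hv)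
  have h0m : ∀ x ∈ S0, ∀ y ∈ Sm, ⁅x, y⁆ ∈ Sm := by
    intro x hx y hy
    refine (mBr x Sm y).1 (im _ (fun j v hv => (mBr _ _ _).2 ?_) y hy)
    refine (mBl _ Sm x).1 (i0 _ (fun i u w hu hw => (mBl _ _ _).2 ?_) x hx)
    rw [b0m i j u w v hu hw hv]
    exact Submodule.neg_mem _ (mm j _ (wj hw hu hv))
  have hpm : ∀ x ∈ Sp, ∀ y ∈ Sm, ⁅x, y⁆ ∈ S0 := by
    intro x hx y hy
    refine (mBr x S0 y).1 (im _ (fun j v hv => (mBr _ _ _).2 ?_) y hy)
    refine (mBl _ S0 x).1 (ip _ (fun i u hu => (mBl _ _ _).2 ?_) x hx)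
    by_cases hij : i = j
    · subst hij
      exact m0 i u v hu hv
    · have e1 : ⁅u, θ v⁆ = 0 := by
        have h1 := hu.lie (hv.theta hA)
        rw [← sub_eq_add_neg] at h1
        exact h1.eq_zero (hS.dif i j hij).2 (hS.dif i j hij).1
      have e2 : ⁅F i u, θ' (F j v)⁆ = 0 := by
        have h1 := (hF i u hu).lie ((hF j v hv).theta hA')
        rw [← sub_eq_add_neg] at h1
        exact h1.eq_zero (hS'.dif i j hij).2 (hS'.dif i j hij).1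
      rw [LieAlgebra.Prod.bracket_apply]
      have e3 : ((⁅u, θ v⁆, ⁅F i u, θ' (F j v)⁆) : L × L') = 0 := by
        rw [e1, e2]
        rfl
      exact e3 ▸ S0.zero_mem
  have h00 : ∀ x ∈ S0, ∀ y ∈ S0, ⁅x, y⁆ ∈ S0 := by
    intro x hx y hy
    refine (mBr x S0 y).1 (i0 _ (fun i u w hu hw => (mBr _ _ _).2 ?_) y hy)
    have e1 : ((⁅u, θ w⁆, ⁅F i u, θ' (F i w)⁆) : L × L') = ⁅((u, F i u) : L × L'), ((θ w, θ' (F i w)) : L × L')⁆ := by
      rw [LieAlgebra.Prod.bracket_apply]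
    rw [e1, leibniz_lie]
    exact S0.add_mem (hpm _ (h0p x hx _ (mp i u hu)) _ (mm i w hw)) (hpm _ (mp i u hu) _ (h0m x hx _ (mm i w hw)))
  -- degrees
  have hH0 : ∀ x ∈ S0, ⁅(((H : L), (H' : L')) : L × L'), x⁆ = 0 := by
    intro x hx
    refine (Submodule.mem_bot ℝ).1 ((mBr _ ⊥ x).1 (i0 _ (fun i u w hu hw => (mBr _ _ _).2 ?_) x hx))
    rw [Submodule.mem_bot, LieAlgebra.Prod.bracket_apply]
    have h1 := w0 hu hw H
    have h2 := (hF i u hu).lie ((hF i w hw).theta hA') H'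
    rw [LinearMap.zero_apply, zero_smul] at h1
    rw [add_neg_cancel, LinearMap.zero_apply, zero_smul] at h2
    rw [h1, h2]
    rfl
  have hHp : ∀ x ∈ Sp, ⁅(((H : L), (H' : L')) : L × L'), x⁆ = x := by
    intro x hx
    let P : Submodule ℝ (L × L') := ((LieAlgebra.ad ℝ (L × L') (((H : L), (H' : L')) : L × L') : (L × L') →ₗ[ℝ] (L × L')) - LinearMap.id).ker
    have mP : ∀ w, w ∈ P ↔ ⁅(((H : L), (H' : L')) : L × L'), w⁆ = w := fun w => sub_eq_zero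
    refine (mP x).1 (ip P (fun i u hu => (mP _).2 ?_) x hx)
    rw [LieAlgebra.Prod.bracket_apply]
    have h1 := hu H
    have h2 := hF i u hu H'
    rw [hH, one_smul] at h1
    rw [hH', one_smul] at h2
    exact Prod.ext h1 h2
  have hHm : ∀ x ∈ Sm, ⁅(((H : L), (H' : L')) : L × L'), x⁆ = -x := by
    intro x hx
    let P : Submodule ℝ (L × L') := ((LieAlgebra.ad ℝ (L × L') (((H : L), (H' : L')) : L × L') : (L × L') →ₗ[ℝ] (L × L')) + LinearMap.id).ker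
    have mP : ∀ w, w ∈ P ↔ ⁅(((H : L), (H' : L')) : L × L'), w⁆ = -w := fun w => by
      rw [eq_neg_iff_add_eq_zero]
      rfl
    refine (mP x).1 (im P (fun i u hu => (mP _).2 ?_) x hx)
    rw [LieAlgebra.Prod.bracket_apply, Prod.neg_mk]
    have h1 := hu.theta hA H
    have h2 := (hF i u hu).theta hA' H'
    rw [LinearMap.neg_apply, hH, neg_one_smul] at h1
    rw [LinearMap.neg_apply, hH', neg_one_smul] at h2
    exact Prod.ext h1 h2
  -- the projections of S0 are injective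
  have rel1 : ∀ z ∈ S0, ∀ j v, Wv A (al j) v → ⁅z.2, F j v⁆ = F j ⁅z.1, v⁆ := by
    intro z hz j v hv
    let P : Submodule ℝ (L × L') := LinearMap.ker
      ((-(LieAlgebra.ad ℝ L' (F j v) : L' →ₗ[ℝ] L')) ∘ₗ LinearMap.snd ℝ L L' -
        (F j) ∘ₗ (-(LieAlgebra.ad ℝ L v : L →ₗ[ℝ] L)) ∘ₗ LinearMap.fst ℝ L L')
    have mP : ∀ w, w ∈ P ↔ ⁅w.2, F j v⁆ = F j ⁅w.1, v⁆ := fun w => by
      rw [← lie_skew w.2, ← lie_skew w.1]
      exact sub_eq_zero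
    refine (mP z).1 (i0 P (fun i u w hu hw => (mP _).2 ?_) z hz)
    exact (hT i j u w v hu hw hv).symm
  have rel2 : ∀ z ∈ S0, ∀ j v, Wv A (al j) v → ⁅z.2, θ' (F j v)⁆ = θ' (F j (θ ⁅z.1, θ v⁆)) := by
    intro z hz j v hv
    let P : Submodule ℝ (L × L') := LinearMap.ker
      ((-(LieAlgebra.ad ℝ L' (θ' (F j v)) : L' →ₗ[ℝ] L')) ∘ₗ LinearMap.snd ℝ L L' -
        (θ' : L' →ₗ[ℝ] L') ∘ₗ (F j) ∘ₗ (θ : L →ₗ[ℝ] L) ∘ₗ (-(LieAlgebra.ad ℝ L (θ v) : L →ₗ[ℝ] L)) ∘ₗ LinearMap.fst ℝ L L')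
    have mP : ∀ w, w ∈ P ↔ ⁅w.2, θ' (F j v)⁆ = θ' (F j (θ ⁅w.1, θ v⁆)) := fun w => by
      rw [← lie_skew w.2, ← lie_skew w.1]
      exact sub_eq_zero
    refine (mP z).1 (i0 P (fun i u w hu hw => (mP _).2 ?_) z hz)
    change ⁅⁅F i u, θ' (F i w)⁆, θ' (F j v)⁆ = θ' (F j (θ ⁅⁅u, θ w⁆, θ v⁆))
    rw [t2, t1, map_neg, h.invol, map_neg, map_neg, hT i j w u v hw hu hv]
  have inj : ∀ y : L', ((0, y) : L × L') ∈ S0 → y = 0 := by
    intro y hy
    refine hS'.comm_zero h' hA' (fun i w hw => ?_) (fun i w hw => ?_)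
    · obtain ⟨x, hx, rfl⟩ := hFs i w hw
      have h1 := rel1 _ hy i x hx
      rw [zero_lie, map_zero] at h1
      exact h1
    · obtain ⟨x, hx, rfl⟩ := hFs i w hw
      have h1 := rel2 _ hy i x hx
      rw [zero_lie, map_zero, map_zero, map_zero] at h1
      exact h1
  have inj' : ∀ x : L, ((x, 0) : L × L') ∈ S0 → x = 0 := by
    intro x hx
    have hx0 : Wv A 0 x := by
      intro a
      let P : Submodule ℝ (L × L') := LinearMap.ker
        ((LieAlgebra.ad ℝ L (a : L) : L →ₗ[ℝ] L) ∘ₗ LinearMap.fst ℝ L L')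
      have h1 : ((x, 0) : L × L') ∈ P := i0 P (fun i u w hu hw => by
        have h2 := w0 hu hw a
        rw [LinearMap.zero_apply, zero_smul] at h2
        exact h2) _ hx
      rw [LinearMap.zero_apply, zero_smul]
      exact h1
    refine hS.comm_zero h hA (fun i w hw => ?_) (fun i w hw => ?_)
    · have h1 := rel1 _ hx i w hw
      rw [zero_lie] at h1
      have h2 := hx0.lie hw
      rw [zero_add] at h2
      exact hFi i _ h2 h1.symm
    · have h1 := rel2 _ hx i w hw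
      rw [zero_lie] at h1
      have h2 := (hx0.lie (hw.theta hA)).theta hA
      rw [zero_add, neg_neg] at h2
      have h3 : F i (θ ⁅x, θ w⁆) = 0 := by
        apply θ'.injective
        rw [map_zero]
        exact h1.symm
      have h4 := hFi i _ h2 h3
      have h5 : θ ⁅x, θ w⁆ = θ 0 := by rw [h4, map_zero]
      exact θ.injective h5
  -- generation
  obtain ⟨i₀⟩ := (inferInstance : Nonempty ι)
  have hn : (H : L) ≠ 0 := by
    intro h1
    have h2 : H = 0 := Subtype.ext h1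
    have h3 := hH i₀
    rw [h2, map_zero] at h3
    exact zero_ne_one h3
  have hn' : (H' : L') ≠ 0 := by
    intro h1
    have h2 : H' = 0 := Subtype.ext h1
    have h3 := hH' i₀
    rw [h2, map_zero] at h3
    exact zero_ne_one h3
  have gen : LieSubalgebra.lieSpan ℝ L {x : L | ∃ y : L', ((x, y) : L × L') ∈ (S0 : Set (L × L')) ∪ (Sp ∪ Sm)} = ⊤ := by
    rw [eq_top_iff, ← hS.gen, LieSubalgebra.lieSpan_le]
    rintro x ⟨i, hx | hx⟩
    · exact LieSubalgebra.subset_lieSpan ⟨F i x, Or.inr (Or.inl (mp i x hx))⟩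
    · have h1 := hx.theta hA
      rw [neg_neg] at h1
      have h2 := mm i _ h1
      rw [h.invol] at h2
      exact LieSubalgebra.subset_lieSpan ⟨_, Or.inr (Or.inr h2)⟩
  have gen' : LieSubalgebra.lieSpan ℝ L' {y : L' | ∃ x : L, ((x, y) : L × L') ∈ (S0 : Set (L × L')) ∪ (Sp ∪ Sm)} = ⊤ := by
    rw [eq_top_iff, ← hS'.gen, LieSubalgebra.lieSpan_le]
    rintro y ⟨i, hy | hy⟩
    · obtain ⟨x, hx, rfl⟩ := hFs i y hy
      exact LieSubalgebra.subset_lieSpan ⟨x, Or.inr (Or.inl (mp i x hx))⟩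
    · have h1 := hy.theta hA'
      rw [neg_neg] at h1
      obtain ⟨x, hx, h2⟩ := hFs i _ h1
      have h3 := mm i _ hx
      rw [h2, h'.invol] at h3
      exact LieSubalgebra.subset_lieSpan ⟨_, Or.inr (Or.inr h3)⟩
  obtain ⟨e, he⟩ := loc_iso hn hn' hH0 hHp hHm h00 h0p h0m hpm gen gen' inj inj'
  have e1 : ∀ i x, Wv A (al i) x → e x = F i x := fun i x hx => he _ (Or.inr (Or.inl (mp i x hx)))
  have e2 : ∀ i x, Wv A (al i) x → e (θ x) = θ' (F i x) := fun i x hx => he _ (Or.inr (Or.inr (mm i x hx)))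
  refine ⟨e, e1, ?_⟩
  refine lieSpan_ext hS.gen (f := (e : L →ₗ⁅ℝ⁆ L').comp (θ : L →ₗ⁅ℝ⁆ L)) (g := (θ' : L' →ₗ⁅ℝ⁆ L').comp (e : L →ₗ⁅ℝ⁆ L')) ?_
  rintro x ⟨i, hx | hx⟩
  · change e (θ x) = θ' (e x)
    rw [e1 i x hx, e2 i x hx]
  · have h1 := hx.theta hA
    rw [neg_neg] at h1
    change e (θ x) = θ' (e x)
    have h2 := e2 i _ h1
    rw [h.invol] at h2
    rw [e1 i _ h1, h2, h'.invol]

end Pool.Agent.Helper77.AE
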