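import Mathlib

/-!
# Project MP_0f6f3f_an, layer AE (algebraic end): the local part determines a simple graded Lie algebra

`loc_mem`: if `S0`, `Sp`, `Sm` are subspaces of degree `0`, `1`, `-1` (for the grading by the eigenvalues of `ad H`) with `[S0, S0] ⊆ S0`, `[S0, Sp] ⊆ Sp`, `[S0, Sm] ⊆ Sm`, `[Sp, Sm] ⊆ S0`, then the degree zero part of
the subalgebra generated by them is `S0`. `loc_iso`: two simple Lie algebras with the same local part are isomorphic (the subalgebra of `L × L'` generated by the graph of an isomorphism of the local parts is the graph of an isomorphism).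
-/

set_option autoImplicit false

namespace Pool.Agent.Helper77.AE

section one

variable {M : Type*} [LieRing M] [LieAlgebra ℝ M] {H : M} {S0 Sp Sm : Submodule ℝ M}

private theorem np77 (hp : ∀ x ∈ S0, ∀ y ∈ Sp, ⁅x, y⁆ ∈ Sp) {x : M} (hx : x ∈ S0) {y : M}
    (hy : y ∈ LieSubalgebra.lieSpan ℝ M (Sp : Set M)) : ⁅x, y⁆ ∈ LieSubalgebra.lieSpan ℝ M (Sp : Set M) := by
  refine LieSubalgebra.lieSpan_induction (R := ℝ) (L := M) (s := (Sp : Set M))
    (p := fun y _ => ⁅x, y⁆ ∈ LieSubalgebra.lieSpan ℝ M (Sp : Set M)) ?_ ?_ ?_ ?_ ?_ hy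
  · intro z hz
    exact LieSubalgebra.subset_lieSpan (hp x hx z hz)
  · rw [lie_zero]
    exact LieSubalgebra.zero_mem _
  · intro z w _ _ h1 h2
    rw [lie_add]
    exact LieSubalgebra.add_mem _ h1 h2
  · intro c z _ h1
    rw [lie_smul]
    exact LieSubalgebra.smul_mem _ c h1
  · intro z w hz hw h1 h2
    rw [leibniz_lie]
    exact LieSubalgebra.add_mem _ (LieSubalgebra.lie_mem _ h1 hw) (LieSubalgebra.lie_mem _ hz h2)

private theorem pn77 (h0 : ∀ x ∈ S0, ∀ y ∈ Sm, ⁅x, y⁆ ∈ Sm) (h1 : ∀ x ∈ Sp, ∀ y ∈ Sm, ⁅x, y⁆ ∈ S0) {x : M} (hx : x ∈ Sp) {y : M}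
    (hy : y ∈ LieSubalgebra.lieSpan ℝ M (Sm : Set M)) :
    ⁅x, y⁆ ∈ (LieSubalgebra.lieSpan ℝ M (Sm : Set M)).toSubmodule ⊔ S0 := by
  have key : ∀ z w : M, z ∈ (LieSubalgebra.lieSpan ℝ M (Sm : Set M)).toSubmodule ⊔ S0 → w ∈ LieSubalgebra.lieSpan ℝ M (Sm : Set M) →
      ⁅z, w⁆ ∈ LieSubalgebra.lieSpan ℝ M (Sm : Set M) := by
    intro z w hz hw
    obtain ⟨a, ha, c, hc, rfl⟩ := Submodule.mem_sup.1 hz
    rw [add_lie]
    exact LieSubalgebra.add_mem _ (LieSubalgebra.lie_mem _ ha hw) (np77 h0 hc hw)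
  refine LieSubalgebra.lieSpan_induction (R := ℝ) (L := M) (s := (Sm : Set M))
    (p := fun y _ => ⁅x, y⁆ ∈ (LieSubalgebra.lieSpan ℝ M (Sm : Set M)).toSubmodule ⊔ S0) ?_ ?_ ?_ ?_ ?_ hy
  · intro z hz
    exact Submodule.mem_sup_right (h1 x hx z hz)
  · rw [lie_zero]
    exact Submodule.zero_mem _
  · intro z w _ _ h2 h3
    rw [lie_add]
    exact Submodule.add_mem _ h2 h3
  · intro c z _ h2
    rw [lie_smul]
    exact Submodule.smul_mem _ c h2
  · intro z w hz hw h2 h3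
    rw [leibniz_lie]
    refine Submodule.mem_sup_left (Submodule.add_mem _ (key _ _ h2 hw) ?_)
    rw [← lie_skew]
    exact Submodule.neg_mem _ (key _ _ h3 hz)

private theorem ps77 {s : ℝ} (hs : 0 < s) (hp : ∀ x ∈ Sp, ⁅H, x⁆ = s • x) {y : M} (hy : y ∈ LieSubalgebra.lieSpan ℝ M (Sp : Set M)) :
    y ∈ Submodule.span ℝ {x : M | ∃ j : ℝ, 0 < j ∧ ⁅H, x⁆ = j • x} := by
  refine LieSubalgebra.lieSpan_induction (R := ℝ) (L := M) (s := (Sp : Set M))
    (p := fun y _ => y ∈ Submodule.span ℝ {x : M | ∃ j : ℝ, 0 < j ∧ ⁅H, x⁆ = j • x}) ?_ ?_ ?_ ?_ ?_ hy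
  · intro z hz
    exact Submodule.subset_span ⟨s, hs, hp z hz⟩
  · exact Submodule.zero_mem _
  · intro z w _ _ h2 h3
    exact Submodule.add_mem _ h2 h3
  · intro c z _ h2
    exact Submodule.smul_mem _ c h2
  · intro z w _ _ h2 h3
    refine Submodule.span_induction₂ (p := fun z w _ _ => ⁅z, w⁆ ∈ Submodule.span ℝ {x : M | ∃ j : ℝ, 0 < j ∧ ⁅H, x⁆ = j • x})
      ?_ ?_ ?_ ?_ ?_ ?_ ?_ h2 h3
    · rintro a c ⟨j, hj, ha⟩ ⟨k, hk, hc⟩
      refine Submodule.subset_span ⟨j + k, add_pos hj hk, ?_⟩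
      rw [leibniz_lie, ha, hc, smul_lie, lie_smul, add_smul]
    · intro a _
      rw [zero_lie]
      exact Submodule.zero_mem _
    · intro a _
      rw [lie_zero]
      exact Submodule.zero_mem _
    · intro a c d _ _ _ h4 h5
      rw [add_lie]
      exact Submodule.add_mem _ h4 h5
    · intro a c d _ _ _ h4 h5
      rw [lie_add]
      exact Submodule.add_mem _ h4 h5
    · intro r a c _ _ h4
      rw [smul_lie]
      exact Submodule.smul_mem _ r h4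
    · intro r a c _ _ h4
      rw [lie_smul]
      exact Submodule.smul_mem _ r h4

/-- **The degree zero part.** -/
theorem loc_mem (hH0 : ∀ x ∈ S0, ⁅H, x⁆ = 0) (hHp : ∀ x ∈ Sp, ⁅H, x⁆ = x) (hHm : ∀ x ∈ Sm, ⁅H, x⁆ = -x)
    (h00 : ∀ x ∈ S0, ∀ y ∈ S0, ⁅x, y⁆ ∈ S0) (h0p : ∀ x ∈ S0, ∀ y ∈ Sp, ⁅x, y⁆ ∈ Sp) (h0m : ∀ x ∈ S0, ∀ y ∈ Sm, ⁅x, y⁆ ∈ Sm)
    (hpm : ∀ x ∈ Sp, ∀ y ∈ Sm, ⁅x, y⁆ ∈ S0) {t : M} (ht : t ∈ LieSubalgebra.lieSpan ℝ M ((S0 : Set M) ∪ (Sp ∪ Sm)))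
    (ht0 : ⁅H, t⁆ = 0) : t ∈ S0 := by
  have hmp : ∀ x ∈ Sm, ∀ y ∈ Sp, ⁅x, y⁆ ∈ S0 := by
    intro x hx y hy
    rw [← lie_skew]
    exact Submodule.neg_mem _ (hpm y hy x hx)
  obtain ⟨T, hT⟩ : ∃ T : Submodule ℝ M, T = (LieSubalgebra.lieSpan ℝ M (Sm : Set M)).toSubmodule ⊔ S0 ⊔
    (LieSubalgebra.lieSpan ℝ M (Sp : Set M)).toSubmodule := ⟨_, rfl⟩
  have hTm : ∀ x ∈ LieSubalgebra.lieSpan ℝ M (Sm : Set M), x ∈ T := fun x hx => by
    rw [hT]
    exact Submodule.mem_sup_left (Submodule.mem_sup_left hx)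
  have hT0 : ∀ x ∈ S0, x ∈ T := fun x hx => by
    rw [hT]
    exact Submodule.mem_sup_left (Submodule.mem_sup_right hx)
  have hTp : ∀ x ∈ LieSubalgebra.lieSpan ℝ M (Sp : Set M), x ∈ T := fun x hx => by
    rw [hT]
    exact Submodule.mem_sup_right hx
  have hT0' : (LieSubalgebra.lieSpan ℝ M (Sm : Set M)).toSubmodule ⊔ S0 ≤ T := by
    rw [hT]
    exact le_sup_left
  have hT1' : (LieSubalgebra.lieSpan ℝ M (Sp : Set M)).toSubmodule ⊔ S0 ≤ T := sup_le hTp hT0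
  -- the stabiliser of T
  let K : LieSubalgebra ℝ M :=
    { carrier := {x | ∀ y ∈ T, ⁅x, y⁆ ∈ T}
      add_mem' := by
        intro a c ha hc y hy
        rw [add_lie]
        exact T.add_mem (ha y hy) (hc y hy)
      zero_mem' := by
        intro y _
        rw [zero_lie]
        exact T.zero_mem
      smul_mem' := by
        intro r a ha y hy
        rw [smul_lie]
        exact T.smul_mem r (ha y hy)
      lie_mem' := by
        intro a c ha hc y hy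
        rw [lie_lie]
        exact T.sub_mem (ha _ (hc y hy)) (hc _ (ha y hy)) }
  have hSK : (S0 : Set M) ∪ (Sp ∪ Sm) ⊆ K := by
    intro x hx y hy
    rw [hT] at hy
    obtain ⟨z, hz, n, hn, rfl⟩ := Submodule.mem_sup.1 hy
    obtain ⟨m, hm, s, hs, rfl⟩ := Submodule.mem_sup.1 hz
    rw [lie_add, lie_add]
    rcases hx with hx | hx | hx
    · exact T.add_mem (T.add_mem (hTm _ (np77 h0m hx hm)) (hT0 _ (h00 x hx s hs))) (hTp _ (np77 h0p hx hn))
    · refine T.add_mem (T.add_mem (hT0' (pn77 h0m hpm hx hm)) (hTp _ ?_)) (hTp _ ?_)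
      · rw [← lie_skew]
        exact neg_mem (LieSubalgebra.subset_lieSpan (h0p s hs x hx))
      · exact LieSubalgebra.lie_mem _ (LieSubalgebra.subset_lieSpan hx) hn
    · refine T.add_mem (T.add_mem (hTm _ ?_) (hTm _ ?_)) (hT1' (pn77 h0p hmp hx hn))
      · exact LieSubalgebra.lie_mem _ (LieSubalgebra.subset_lieSpan hx) hm
      · rw [← lie_skew]
        exact neg_mem (LieSubalgebra.subset_lieSpan (h0m s hs x hx))
  have hDK : LieSubalgebra.lieSpan ℝ M ((S0 : Set M) ∪ (Sp ∪ Sm)) ≤ K := LieSubalgebra.lieSpan_le.2 hSK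
  have htT : t ∈ T := by
    refine LieSubalgebra.lieSpan_induction (R := ℝ) (L := M) (s := (S0 : Set M) ∪ (Sp ∪ Sm)) (p := fun y _ => y ∈ T) ?_ ?_ ?_ ?_ ?_ ht
    · rintro z (hz | hz | hz)
      · exact hT0 z hz
      · exact hTp z (LieSubalgebra.subset_lieSpan hz)
      · exact hTm z (LieSubalgebra.subset_lieSpan hz)
    · exact T.zero_mem
    · intro z w _ _ h2 h3
      exact T.add_mem h2 h3
    · intro c z _ h2
      exact T.smul_mem c h2
    · intro z w hz _ _ h3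
      exact hDK hz w h3
  -- independence of the eigenspaces
  rw [hT] at htT
  obtain ⟨z, hz, n, hn, rfl⟩ := Submodule.mem_sup.1 htT
  obtain ⟨m, hm, s, hs, rfl⟩ := Submodule.mem_sup.1 hz
  have e1 : ⁅H, m + n⁆ = 0 := by
    rw [lie_add, lie_add, hH0 s hs, add_zero] at ht0
    rw [lie_add, ht0]
  obtain ⟨Z, hZ⟩ : ∃ Z : Module.End ℝ M, Z = (LieAlgebra.ad ℝ M H : M →ₗ[ℝ] M) := ⟨_, rfl⟩
  have hZe : ∀ x, Z x = ⁅H, x⁆ := fun x => by
    rw [hZ]
    rfl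
  have hpos : ∀ y ∈ Submodule.span ℝ {x : M | ∃ j : ℝ, 0 < j ∧ ⁅H, x⁆ = j • x}, y ∈ ⨆ (j : ℝ) (_ : j ≠ 0), Z.eigenspace j := by
    intro y hy
    refine (Submodule.span_le.2 ?_ : _ ≤ ⨆ (j : ℝ) (_ : j ≠ 0), Z.eigenspace j) hy
    rintro x ⟨j, hj, hx⟩
    refine Submodule.mem_iSup_of_mem j (Submodule.mem_iSup_of_mem hj.ne' ?_)
    rw [Module.End.mem_eigenspace_iff, hZe]
    exact hx
  have hneg : ∀ y ∈ Submodule.span ℝ {x : M | ∃ j : ℝ, 0 < j ∧ ⁅-H, x⁆ = j • x}, y ∈ ⨆ (j : ℝ) (_ : j ≠ 0), Z.eigenspace j := by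
    intro y hy
    refine (Submodule.span_le.2 ?_ : _ ≤ ⨆ (j : ℝ) (_ : j ≠ 0), Z.eigenspace j) hy
    rintro x ⟨j, hj, hx⟩
    refine Submodule.mem_iSup_of_mem (-j) (Submodule.mem_iSup_of_mem (neg_ne_zero.2 hj.ne') ?_)
    rw [Module.End.mem_eigenspace_iff, hZe, neg_smul, ← hx, neg_lie, neg_neg]
  have hn' : n ∈ ⨆ (j : ℝ) (_ : j ≠ 0), Z.eigenspace j :=
    hpos n (ps77 one_pos (fun x hx => by rw [hHp x hx, one_smul]) hn)
  have hm' : m ∈ ⨆ (j : ℝ) (_ : j ≠ 0), Z.eigenspace j :=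
    hneg m (ps77 (H := -H) one_pos (fun x hx => by rw [neg_lie, hHm x hx, neg_neg, one_smul]) hm)
  have h1 : m + n ∈ Z.eigenspace (0 : ℝ) := by
    rw [Module.End.mem_eigenspace_iff, hZe, e1, zero_smul]
  have h2 := (Z.eigenspaces_iSupIndep 0).le_bot ⟨h1, Submodule.add_mem _ hm' hn'⟩
  have h3 : m + n = 0 := h2
  have h4 : m + s + n = s := by
    rw [add_right_comm, h3, zero_add]
  rw [h4]
  exact hs

end one

section two

variable {L L' : Type*} [LieRing L] [LieAlgebra ℝ L] [LieRing L'] [LieAlgebra ℝ L']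

/-- **The local part determines a simple Lie algebra.** -/
theorem loc_iso [LieAlgebra.IsSimple ℝ L] [LieAlgebra.IsSimple ℝ L'] {h : L} {h' : L'} (hn : h ≠ 0) (hn' : h' ≠ 0)
    {S0 Sp Sm : Submodule ℝ (L × L')}
    (hH0 : ∀ x ∈ S0, ⁅((h, h') : L × L'), x⁆ = 0) (hHp : ∀ x ∈ Sp, ⁅((h, h') : L × L'), x⁆ = x)
    (hHm : ∀ x ∈ Sm, ⁅((h, h') : L × L'), x⁆ = -x)
    (h00 : ∀ x ∈ S0, ∀ y ∈ S0, ⁅x, y⁆ ∈ S0) (h0p : ∀ x ∈ S0, ∀ y ∈ Sp, ⁅x, y⁆ ∈ Sp) (h0m : ∀ x ∈ S0, ∀ y ∈ Sm, ⁅x, y⁆ ∈ Sm)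
    (hpm : ∀ x ∈ Sp, ∀ y ∈ Sm, ⁅x, y⁆ ∈ S0)
    (gen : LieSubalgebra.lieSpan ℝ L {x : L | ∃ y : L', ((x, y) : L × L') ∈ (S0 : Set (L × L')) ∪ (Sp ∪ Sm)} = ⊤)
    (gen' : LieSubalgebra.lieSpan ℝ L' {y : L' | ∃ x : L, ((x, y) : L × L') ∈ (S0 : Set (L × L')) ∪ (Sp ∪ Sm)} = ⊤)
    (inj : ∀ y : L', ((0, y) : L × L') ∈ S0 → y = 0) (inj' : ∀ x : L, ((x, 0) : L × L') ∈ S0 → x = 0) :
    ∃ e : L ≃ₗ⁅ℝ⁆ L', ∀ z ∈ (S0 : Set (L × L')) ∪ (Sp ∪ Sm), e z.1 = z.2 := by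
  obtain ⟨D, hD⟩ : ∃ D : LieSubalgebra ℝ (L × L'), D = LieSubalgebra.lieSpan ℝ (L × L') ((S0 : Set (L × L')) ∪ (Sp ∪ Sm)) := ⟨_, rfl⟩
  have hSD : ∀ z ∈ (S0 : Set (L × L')) ∪ (Sp ∪ Sm), z ∈ D := fun z hz => by
    rw [hD]
    exact LieSubalgebra.subset_lieSpan hz
  have hsur : ∀ x : L, ∃ y : L', ((x, y) : L × L') ∈ D := by
    have h1 : LieSubalgebra.lieSpan ℝ L {x : L | ∃ y : L', ((x, y) : L × L') ∈ (S0 : Set (L × L')) ∪ (Sp ∪ Sm)} ≤
        D.map (LieHom.fst ℝ L L') := by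
      rw [LieSubalgebra.lieSpan_le]
      rintro x ⟨y, hy⟩
      exact ⟨(x, y), hSD _ hy, rfl⟩
    intro x
    have h2 : x ∈ D.map (LieHom.fst ℝ L L') := h1 (by rw [gen]; trivial)
    obtain ⟨⟨x', y⟩, hz, h3⟩ := h2
    have h4 : x' = x := h3
    subst h4
    exact ⟨y, hz⟩
  have hsur' : ∀ y : L', ∃ x : L, ((x, y) : L × L') ∈ D := by
    have h1 : LieSubalgebra.lieSpan ℝ L' {y : L' | ∃ x : L, ((x, y) : L × L') ∈ (S0 : Set (L × L')) ∪ (Sp ∪ Sm)} ≤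
        D.map (LieHom.snd ℝ L L') := by
      rw [LieSubalgebra.lieSpan_le]
      rintro y ⟨x, hx⟩
      exact ⟨(x, y), hSD _ hx, rfl⟩
    intro y
    have h2 : y ∈ D.map (LieHom.snd ℝ L L') := h1 (by rw [gen']; trivial)
    obtain ⟨⟨x, y'⟩, hz, h3⟩ := h2
    have h4 : y' = y := h3
    subst h4
    exact ⟨x, hz⟩
  have hD0 : ∀ t ∈ D, ⁅((h, h') : L × L'), t⁆ = 0 → t ∈ S0 := by
    intro t ht ht0
    rw [hD] at ht
    exact loc_mem hH0 hHp hHm h00 h0p h0m hpm ht ht0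
  let I' : LieIdeal ℝ L' :=
    { carrier := {y | ((0, y) : L × L') ∈ D}
      add_mem' := by
        intro a c ha hc
        have h1 := D.add_mem ha hc
        rwa [Prod.mk_add_mk, add_zero] at h1
      zero_mem' := D.zero_mem
      smul_mem' := by
        intro r a ha
        have h1 := D.smul_mem r ha
        rwa [Prod.smul_mk, smul_zero] at h1
      lie_mem := by
        intro x a ha
        obtain ⟨w, hw⟩ := hsur' x
        have h1 := D.lie_mem hw ha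
        rwa [LieAlgebra.Prod.bracket_apply, lie_zero] at h1 }
  let I : LieIdeal ℝ L :=
    { carrier := {x | ((x, 0) : L × L') ∈ D}
      add_mem' := by
        intro a c ha hc
        have h1 := D.add_mem ha hc
        rwa [Prod.mk_add_mk, add_zero] at h1
      zero_mem' := D.zero_mem
      smul_mem' := by
        intro r a ha
        have h1 := D.smul_mem r ha
        rwa [Prod.smul_mk, smul_zero] at h1
      lie_mem := by
        intro x a ha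
        obtain ⟨w, hw⟩ := hsur x
        have h1 := D.lie_mem hw ha
        rwa [LieAlgebra.Prod.bracket_apply, lie_zero] at h1 }
  have hI' : I' = ⊥ := by
    refine (LieAlgebra.IsSimple.eq_bot_or_eq_top (R := ℝ) I').resolve_right fun h1 => hn' ?_
    have h2 : h' ∈ I' := by
      rw [h1]
      trivial
    have h3 : ((0, h') : L × L') ∈ D := h2
    refine inj h' (hD0 _ h3 ?_)
    rw [LieAlgebra.Prod.bracket_apply, lie_zero, lie_self]
    rfl
  have hI : I = ⊥ := by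
    refine (LieAlgebra.IsSimple.eq_bot_or_eq_top (R := ℝ) I).resolve_right fun h1 => hn ?_
    have h2 : h ∈ I := by
      rw [h1]
      trivial
    have h3 : ((h, 0) : L × L') ∈ D := h2
    refine inj' h (hD0 _ h3 ?_)
    rw [LieAlgebra.Prod.bracket_apply, lie_zero, lie_self]
    rfl
  have huniq : ∀ {x : L} {y y' : L'}, ((x, y) : L × L') ∈ D → ((x, y') : L × L') ∈ D → y = y' := by
    intro x y y' h1 h2
    have h3 := D.sub_mem h1 h2
    rw [Prod.mk_sub_mk, sub_self] at h3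
    have h4 : y - y' ∈ I' := h3
    rw [hI'] at h4
    exact sub_eq_zero.1 h4
  have huniq' : ∀ {x x' : L} {y : L'}, ((x, y) : L × L') ∈ D → ((x', y) : L × L') ∈ D → x = x' := by
    intro x x' y h1 h2
    have h3 := D.sub_mem h1 h2
    rw [Prod.mk_sub_mk, sub_self] at h3
    have h4 : x - x' ∈ I := h3
    rw [hI] at h4
    exact sub_eq_zero.1 h4
  have hsur1 := hsur
  have hsur2 := hsur'
  choose f hf using hsur1
  choose g hg using hsur2
  refine ⟨{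
    toFun := f
    map_add' := fun x y => huniq (hf (x + y)) (by
      have h1 := D.add_mem (hf x) (hf y)
      rwa [Prod.mk_add_mk] at h1)
    map_smul' := fun c x => huniq (hf (c • x)) (by
      have h1 := D.smul_mem c (hf x)
      rwa [Prod.smul_mk] at h1)
    map_lie' := fun {x y} => huniq (hf ⁅x, y⁆) (by
      have h1 := D.lie_mem (hf x) (hf y)
      rwa [LieAlgebra.Prod.bracket_apply] at h1)
    invFun := g
    left_inv := fun x => huniq' (hg (f x)) (hf x)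
    right_inv := fun y => huniq (hf (g y)) (hg y) }, ?_⟩
  rintro ⟨x, y⟩ hz
  exact huniq (hf x) (hSD _ hz)

end two

end Pool.Agent.Helper77.AE
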